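import Pool.Agent.H741.RS.Stm

set_option autoImplicit false
open scoped ComplexConjugate

namespace Pool.Agent.H104.RSTOG

open Pool.Agent.H741.RS

theorem J_smul {n : ℕ} (c d : ℂ) (X Y : ℂ × V n) : J (c • X) (d • Y) = c * conj d * J X Y := by
  unfold J hp
  simp only [Prod.smul_fst, Prod.smul_snd, smul_eq_mul, map_mul]
  rw [inner_smul_left, inner_smul_right]
  ring

theorem J_F {n N : ℕ} (f : RSM n N) (z : V n) :
    (J (f.F z) (f.F z)).re = ‖ev f.q z‖ ^ 2 - ∑ i, ‖ev (f.p i) z‖ ^ 2 := by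
  unfold J hp RSM.F
  simp only
  have e : ‖(WithLp.toLp 2 (fun i => ev (f.p i) z) : V N)‖ ^ 2 = ∑ i, ‖ev (f.p i) z‖ ^ 2 := by
    rw [EuclideanSpace.norm_sq_eq]
  rw [Complex.sub_re, Complex.mul_conj, Complex.normSq_eq_norm_sq, inner_self_eq_norm_sq_to_K, ← e]
  norm_cast

theorem F_eq {n N : ℕ} (f : RSM n N) (z : V n) (hz : ‖z‖ ≤ 1) :
    f.F z = ev f.q z • ((1 : ℂ), f.map z) := by
  have hq := f.q_ne z hz
  unfold RSM.F RSM.map
  refine Prod.ext ?_ ?_
  · simp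
  · ext i
    simp only [Prod.smul_snd, PiLp.smul_apply, smul_eq_mul]
    field_simp

theorem t_TOG (h1 : S_EXT) (h2 : S_PRES) : S_TOG := by
  intro n N f d A hA hJ
  refine ⟨⟨A, hA, fun _ _ => rfl⟩, ?_⟩
  have h00 : (0 : V n) ∈ Bn n := by
    show ‖(0 : V n)‖ < 1
    rw [norm_zero]
    exact one_pos
  obtain ⟨B, hB, hF⟩ := h1 N (Bn n) (fun z => f.F z.1)
    (fun z => (A (1, z.1)).1 ^ d • f.F (frac A z.1)) ⟨0, h00⟩ (by
      intro x y
      rw [J_smul, hJ x.1 x.2 y.1 y.2]) (by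
      rw [J_F]
      have := f.maps 0 h00
      linarith)
  refine ⟨frac B, ⟨B, hB, fun _ _ => rfl⟩, ?_⟩
  intro z hz
  obtain ⟨ha, hw, -, -⟩ := (h2 n A hA).2 z hz
  have h3 := hF ⟨z, hz⟩
  simp only at h3
  rw [F_eq f z (le_of_lt hz), F_eq f (frac A z) (le_of_lt hw), smul_smul, map_smul] at h3
  have hqz := f.q_ne z (le_of_lt hz)
  have hqw := f.q_ne (frac A z) (le_of_lt hw)
  have e1 : (A (1, z)).1 ^ d * ev f.q (frac A z) = ev f.q z * (B (1, f.map z)).1 := by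
    have := congrArg Prod.fst h3
    simpa using this
  have e2 : ((A (1, z)).1 ^ d * ev f.q (frac A z)) • f.map (frac A z) =
      ev f.q z • (B (1, f.map z)).2 := congrArg Prod.snd h3
  have hne : (A (1, z)).1 ^ d * ev f.q (frac A z) ≠ 0 := mul_ne_zero (pow_ne_zero _ ha) hqw
  have hb : (B (1, f.map z)).1 ≠ 0 := by
    intro h
    rw [h, mul_zero] at e1
    exact hne e1
  unfold frac
  rw [eq_inv_smul_iff₀ hb]
  rw [e1, ← smul_smul] at e2
  exact smul_right_injective _ hqz e2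

end Pool.Agent.H104.RSTOG
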